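import Mathlib
import Pool.Agent.Q85.HN.C
set_option autoImplicit false
set_option linter.unusedSectionVars false

/-! Functions of two variables which are of bounded variation in the first variable after a
rearrangement of this variable: decomposition in pieces. -/

namespace Pool.Agent.Q85.RV

open MeasureTheory Set Complex
open Pool.Agent.Q85.HN
open Pool.Agent.TH277.HT (ch ch_norm)
open scoped ENNReal NNReal

/-- The variation of `K` in the first variable is controlled by `G`, whose sections are totally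
ordered. -/
def Ctl (K : ℝ → ℝ → ℂ) (G : ℝ → ℝ → ℝ) : Prop :=
  Measurable (Function.uncurry K) ∧ Measurable (Function.uncurry G) ∧
  (∀ s ∈ I1, ∀ t ∈ I1, ‖K s t‖ ≤ 1) ∧ (∀ s ∈ I1, ∀ t ∈ I1, 0 ≤ G s t ∧ G s t ≤ 1) ∧
  (∀ s ∈ I1, ∀ s' ∈ I1, (∀ t ∈ I1, G s t ≤ G s' t) ∨ (∀ t ∈ I1, G s' t ≤ G s t)) ∧
  ∀ s ∈ I1, ∀ s' ∈ I1, ∀ t ∈ I1, ‖K s t - K s' t‖ ≤ |G s t - G s' t|

/-- the mean of a section -/
noncomputable def um (G : ℝ → ℝ → ℝ) (s : ℝ) : ℝ := ∫ t in I1, G s t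

/-- the number of the cell of level `m` -/
noncomputable def cl (G : ℝ → ℝ → ℝ) (m : ℕ) (s : ℝ) : ℕ := ⌊2 ^ m * um G s⌋₊

open Classical in
/-- a point of the cell -/
noncomputable def rp (G : ℝ → ℝ → ℝ) (m c : ℕ) : ℝ :=
  if h : ∃ s ∈ I1, cl G m s = c then h.choose else 0

/-- the approximation of level `m` -/
noncomputable def ap (K : ℝ → ℝ → ℂ) (G : ℝ → ℝ → ℝ) (m : ℕ) (s t : ℝ) : ℂ := K (rp G m (cl G m s)) t

/-- the coefficients of the differences -/
noncomputable def Dc (K : ℝ → ℝ → ℂ) (G : ℝ → ℝ → ℝ) : ℕ → ℕ → ℝ → ℂ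
  | 0, c, t => K (rp G 0 c) t
  | m + 1, c, t => open Classical in
      if ∃ s ∈ I1, cl G (m + 1) s = c then K (rp G (m + 1) c) t - K (rp G m (c / 2)) t else 0

open Classical in
lemma Dc_succ (K : ℝ → ℝ → ℂ) (G : ℝ → ℝ → ℝ) (m c : ℕ) (t : ℝ) : Dc K G (m + 1) c t =
    if ∃ s ∈ I1, cl G (m + 1) s = c then K (rp G (m + 1) c) t - K (rp G m (c / 2)) t else 0 := rfl

/-- the differences -/
noncomputable def df (K : ℝ → ℝ → ℂ) (G : ℝ → ℝ → ℝ) (m : ℕ) (s t : ℝ) : ℂ := Dc K G m (cl G m s) t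

variable {K : ℝ → ℝ → ℂ} {G : ℝ → ℝ → ℝ}

lemma zero_mem : (0 : ℝ) ∈ I1 := by
  unfold I1
  constructor <;> norm_num

lemma rp_mem (G : ℝ → ℝ → ℝ) (m c : ℕ) : rp G m c ∈ I1 := by
  unfold rp
  split_ifs with h
  · exact h.choose_spec.1
  · exact zero_mem

lemma rp_cl (G : ℝ → ℝ → ℝ) (m c : ℕ) (h : ∃ s ∈ I1, cl G m s = c) : cl G m (rp G m c) = c := by
  unfold rp
  rw [dif_pos h]
  exact h.choose_spec.2

lemma I1_fin : IsFiniteMeasure (volume.restrict I1) := ⟨by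
  rw [Measure.restrict_apply_univ, I1_vol]
  exact ENNReal.ofNat_lt_top⟩

lemma G_int (h : Ctl K G) {s : ℝ} (hs : s ∈ I1) : IntegrableOn (G s) I1 := by
  have := I1_fin
  have hm : Measurable (G s) := h.2.1.comp (by fun_prop : Measurable fun t : ℝ => (s, t))
  refine Integrable.mono' (g := fun _ => (1 : ℝ)) (integrable_const _) hm.aestronglyMeasurable ?_
  rw [ae_restrict_iff' I1_meas]
  refine ae_of_all _ fun t ht => ?_
  have h1 := h.2.2.2.1 s hs t ht
  rw [Real.norm_eq_abs, abs_of_nonneg h1.1]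
  exact h1.2

lemma um_nonneg (h : Ctl K G) {s : ℝ} (hs : s ∈ I1) : 0 ≤ um G s := by
  unfold um
  exact setIntegral_nonneg I1_meas fun t ht => (h.2.2.2.1 s hs t ht).1

lemma um_le (h : Ctl K G) {s : ℝ} (hs : s ∈ I1) : um G s ≤ 2 := by
  unfold um
  have := I1_fin
  have h1 : ∫ t in I1, G s t ≤ ∫ _ in I1, (1 : ℝ) := by
    apply setIntegral_mono_on (G_int h hs) (integrable_const _) I1_meas
    intro t ht
    exact (h.2.2.2.1 s hs t ht).2
  refine h1.trans ?_
  rw [setIntegral_const, smul_eq_mul, mul_one, measureReal_def, I1_vol]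
  norm_num

lemma um_meas (h : Measurable (Function.uncurry G)) : Measurable (um G) := by
  unfold um
  have h1 : StronglyMeasurable (Function.uncurry G) := h.stronglyMeasurable
  exact (h1.integral_prod_right (ν := volume.restrict I1)).measurable

lemma cl_meas (h : Measurable (Function.uncurry G)) (m : ℕ) : Measurable (cl G m) := by
  unfold cl
  exact Nat.measurable_floor.comp ((um_meas h).const_mul _)

lemma cl_half (G : ℝ → ℝ → ℝ) (m : ℕ) (s : ℝ) : cl G m s = cl G (m + 1) s / 2 := by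
  unfold cl
  rw [← Nat.floor_div_ofNat]
  congr 1
  rw [pow_succ]
  ring

lemma cl_lt (h : Ctl K G) (m : ℕ) {s : ℝ} (hs : s ∈ I1) : cl G m s < 2 ^ (m + 1) + 1 := by
  unfold cl
  have h1 := um_le h hs
  have h2 := um_nonneg h hs
  rw [Nat.lt_succ_iff]
  apply Nat.floor_le_of_le
  push_cast
  rw [pow_succ]
  have : (0 : ℝ) < 2 ^ m := by positivity
  nlinarith

/-- two points of the same cell -/
lemma um_close (h : Ctl K G) (m : ℕ) {s s' : ℝ} (hs : s ∈ I1) (hs' : s' ∈ I1)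
    (hc : cl G m s = cl G m s') : |um G s - um G s'| ≤ 1 / 2 ^ m := by
  unfold cl at hc
  have h2 : (0 : ℝ) < 2 ^ m := by positivity
  have a1 := Nat.floor_le (mul_nonneg h2.le (um_nonneg h hs))
  have a2 := Nat.lt_floor_add_one (2 ^ m * um G s)
  have b1 := Nat.floor_le (mul_nonneg h2.le (um_nonneg h hs'))
  have b2 := Nat.lt_floor_add_one (2 ^ m * um G s')
  rw [hc] at a1 a2
  rw [abs_le, ← sub_nonneg, le_div_iff₀ h2]
  constructor
  · have : 0 ≤ (um G s - um G s' - -(1 / 2 ^ m)) * 2 ^ m := by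
      have e : (um G s - um G s' - -(1 / 2 ^ m)) * 2 ^ m = 2 ^ m * um G s - 2 ^ m * um G s' + 1 := by
        field_simp
        ring
      rw [e]
      linarith
    exact nonneg_of_mul_nonneg_left this h2
  · linarith

lemma lt_cells (h : Ctl K G) (m : ℕ) {s s' : ℝ} (hs : s ∈ I1) (hs' : s' ∈ I1)
    (hc : cl G m s < cl G m s') {t : ℝ} (ht : t ∈ I1) : G s t ≤ G s' t := by
  rcases h.2.2.2.2.1 s hs s' hs' with h1 | h1
  · exact h1 t ht
  · exfalso
    have h2 : um G s' ≤ um G s := by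
      unfold um
      exact setIntegral_mono_on (G_int h hs') (G_int h hs) I1_meas h1
    have h3 : cl G m s' ≤ cl G m s := by
      unfold cl
      apply Nat.floor_le_floor
      have : (0 : ℝ) < 2 ^ m := by positivity
      nlinarith
    omega

/-- the integral of the difference of two sections -/
lemma int_diff (h : Ctl K G) {s s' : ℝ} (hs : s ∈ I1) (hs' : s' ∈ I1) :
    ∫⁻ t in I1, ‖K s t - K s' t‖ₑ ≤ ENNReal.ofReal |um G s - um G s'| := by
  have i1 : IntegrableOn (fun t => G s t - G s' t) I1 := (G_int h hs).sub (G_int h hs')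
  have key : ∀ (a b : ℝ), a ∈ I1 → b ∈ I1 → (∀ t ∈ I1, G b t ≤ G a t) →
      ∫ t in I1, |G a t - G b t| = |um G a - um G b| := by
    intro a b ha hb hab
    have e1 : ∫ t in I1, |G a t - G b t| = ∫ t in I1, (G a t - G b t) := by
      apply setIntegral_congr_fun I1_meas
      intro t ht
      simp only
      rw [abs_of_nonneg (sub_nonneg.2 (hab t ht))]
    rw [e1, integral_sub (G_int h ha) (G_int h hb)]
    unfold um
    rw [abs_of_nonneg]
    rw [sub_nonneg]
    exact setIntegral_mono_on (G_int h hb) (G_int h ha) I1_meas hab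
  have h1 : ∫ t in I1, |G s t - G s' t| = |um G s - um G s'| := by
    rcases h.2.2.2.2.1 s hs s' hs' with h1 | h1
    · rw [abs_sub_comm (um G s), ← key s' s hs' hs h1]
      simp only [abs_sub_comm]
    · exact key s s' hs hs' h1
  calc ∫⁻ t in I1, ‖K s t - K s' t‖ₑ ≤ ∫⁻ t in I1, ENNReal.ofReal |G s t - G s' t| := by
        apply setLIntegral_mono' I1_meas
        intro t ht
        rw [← ofReal_norm]
        exact ENNReal.ofReal_le_ofReal (h.2.2.2.2.2 s hs s' hs' t ht)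
    _ = ENNReal.ofReal (∫ t in I1, |G s t - G s' t|) := by
        rw [ofReal_integral_eq_lintegral_ofReal i1.abs (ae_of_all _ fun t => abs_nonneg _)]
    _ = _ := by rw [h1]

lemma ap_close (h : Ctl K G) (m : ℕ) {s : ℝ} (hs : s ∈ I1) :
    ∫⁻ t in I1, ‖K s t - ap K G m s t‖ₑ ≤ ENNReal.ofReal (1 / 2 ^ m) := by
  unfold ap
  refine (int_diff h hs (rp_mem G m _)).trans (ENNReal.ofReal_le_ofReal ?_)
  apply um_close h m hs (rp_mem G m _)
  rw [rp_cl G m _ ⟨s, hs, rfl⟩]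

lemma df_zero (s t : ℝ) : df K G 0 s t = ap K G 0 s t := rfl

lemma df_succ (m : ℕ) {s : ℝ} (hs : s ∈ I1) (t : ℝ) :
    df K G (m + 1) s t = ap K G (m + 1) s t - ap K G m s t := by
  unfold df ap
  rw [Dc_succ, if_pos ⟨s, hs, rfl⟩, ← cl_half]

lemma ap_sum (m : ℕ) {s : ℝ} (hs : s ∈ I1) (t : ℝ) :
    ap K G m s t = ∑ i ∈ Finset.range (m + 1), df K G i s t := by
  induction m with
  | zero => simp [df_zero]
  | succ m ih =>
    rw [Finset.sum_range_succ, ← ih, df_succ m hs]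
    ring

lemma df_le_one (h : Ctl K G) (m : ℕ) {s t : ℝ} (hs : s ∈ I1) (ht : t ∈ I1) :
    ‖df K G m s t‖ ≤ 1 := by
  cases m with
  | zero => exact h.2.2.1 _ (rp_mem G _ _) t ht
  | succ m =>
    rw [df_succ m hs]
    unfold ap
    refine (h.2.2.2.2.2 _ (rp_mem G _ _) _ (rp_mem G _ _) t ht).trans ?_
    have h1 := h.2.2.2.1 _ (rp_mem G (m + 1) (cl G (m + 1) s)) t ht
    have h2 := h.2.2.2.1 _ (rp_mem G m (cl G m s)) t ht
    rw [abs_le]
    constructor <;> linarith [h1.1, h1.2, h2.1, h2.2]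

lemma df_int (h : Ctl K G) (m : ℕ) {s : ℝ} (hs : s ∈ I1) :
    ∫⁻ t in I1, ‖df K G m s t‖ₑ ≤ ENNReal.ofReal (2 / 2 ^ m) := by
  cases m with
  | zero =>
    calc ∫⁻ t in I1, ‖df K G 0 s t‖ₑ ≤ ∫⁻ _ in I1, 1 := by
          apply setLIntegral_mono' I1_meas
          intro t ht
          rw [← ofReal_norm]
          exact ENNReal.ofReal_le_one.2 (df_le_one h 0 hs ht)
      _ = _ := by
          rw [setLIntegral_one, I1_vol]
          norm_num
  | succ m =>
    have e1 : ∀ t, df K G (m + 1) s t =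
        K (rp G (m + 1) (cl G (m + 1) s)) t - K (rp G m (cl G m s)) t := fun t => df_succ m hs t
    simp only [e1]
    refine (int_diff h (rp_mem G _ _) (rp_mem G _ _)).trans (ENNReal.ofReal_le_ofReal ?_)
    have e2 : (2 : ℝ) / 2 ^ (m + 1) = 1 / 2 ^ m := by
      rw [pow_succ]
      field_simp
    rw [e2]
    apply um_close h m (rp_mem G _ _) (rp_mem G _ _)
    rw [rp_cl G m _ ⟨s, hs, rfl⟩, cl_half G m (rp G (m + 1) _), rp_cl G (m + 1) _ ⟨s, hs, rfl⟩,
      ← cl_half]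

/-- the supremum of the values of `G` in the cells before `c` -/
noncomputable def hs (G : ℝ → ℝ → ℝ) (m : ℕ) (t : ℝ) (c : ℕ) : ℝ :=
  sSup (insert 0 {x | ∃ s ∈ I1, cl G m s < c ∧ G s t = x})

lemma hs_bdd (h : Ctl K G) (m : ℕ) {t : ℝ} (ht : t ∈ I1) (c : ℕ) :
    BddAbove (insert 0 {x | ∃ s ∈ I1, cl G m s < c ∧ G s t = x}) := by
  refine ⟨1, ?_⟩
  rintro x (hx | ⟨s, hs, -, rfl⟩)
  · rw [hx]
    norm_num
  · exact (h.2.2.2.1 s hs t ht).2

lemma hs_nonneg (h : Ctl K G) (m : ℕ) {t : ℝ} (ht : t ∈ I1) (c : ℕ) : 0 ≤ hs G m t c :=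
  le_csSup (hs_bdd h m ht c) (mem_insert _ _)

lemma hs_le_one (h : Ctl K G) (m : ℕ) {t : ℝ} (ht : t ∈ I1) (c : ℕ) : hs G m t c ≤ 1 := by
  apply csSup_le ⟨0, mem_insert _ _⟩
  rintro x (hx | ⟨s, hs, -, rfl⟩)
  · rw [hx]
    norm_num
  · exact (h.2.2.2.1 s hs t ht).2

lemma hs_mono (h : Ctl K G) (m : ℕ) {t : ℝ} (ht : t ∈ I1) (c : ℕ) :
    hs G m t c ≤ hs G m t (c + 1) := by
  apply csSup_le_csSup (hs_bdd h m ht _) ⟨0, mem_insert _ _⟩
  apply insert_subset_insert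
  rintro x ⟨s, hs, h1, h2⟩
  exact ⟨s, hs, by omega, h2⟩

lemma hs_upper (h : Ctl K G) (m : ℕ) {t : ℝ} (ht : t ∈ I1) {s : ℝ} (hs' : s ∈ I1) :
    G s t ≤ hs G m t (cl G m s + 1) :=
  le_csSup (hs_bdd h m ht _) (mem_insert_of_mem _ ⟨s, hs', by omega, rfl⟩)

lemma hs_lower (h : Ctl K G) (m : ℕ) {t : ℝ} (ht : t ∈ I1) {s : ℝ} (hs' : s ∈ I1) :
    hs G m t (cl G m s) ≤ G s t := by
  apply csSup_le ⟨0, mem_insert _ _⟩
  rintro x (hx | ⟨s', hs1, hc, rfl⟩)
  · rw [hx]
    exact (h.2.2.2.1 s hs' t ht).1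
  · exact lt_cells h m hs1 hs' hc ht

lemma Dc_le (h : Ctl K G) (m c : ℕ) {t : ℝ} (ht : t ∈ I1) :
    ‖Dc K G (m + 1) c t‖ ≤ hs G m t (c / 2 + 1) - hs G m t (c / 2) := by
  rw [Dc_succ]
  split_ifs with hc
  · refine (h.2.2.2.2.2 _ (rp_mem G _ _) _ (rp_mem G _ _) t ht).trans ?_
    have e1 : cl G m (rp G (m + 1) c) = c / 2 := by
      rw [cl_half, rp_cl G (m + 1) c hc]
    have hc2 : ∃ s ∈ I1, cl G m s = c / 2 := ⟨_, rp_mem G _ _, e1⟩
    have e2 : cl G m (rp G m (c / 2)) = c / 2 := rp_cl G m _ hc2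
    have a1 := hs_upper h m ht (rp_mem G (m + 1) c)
    have a2 := hs_lower h m ht (rp_mem G (m + 1) c)
    have b1 := hs_upper h m ht (rp_mem G m (c / 2))
    have b2 := hs_lower h m ht (rp_mem G m (c / 2))
    rw [e1] at a1 a2
    rw [e2] at b1 b2
    rw [abs_le]
    constructor <;> linarith
  · rw [norm_zero]
    linarith [hs_mono h m ht (c / 2)]

lemma sum_half (F : ℕ → ℝ) (N : ℕ) :
    ∑ c ∈ Finset.range (2 * N), F (c / 2) = 2 * ∑ c ∈ Finset.range N, F c := by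
  induction N with
  | zero => simp
  | succ N ih =>
    rw [show 2 * (N + 1) = 2 * N + 1 + 1 by ring, Finset.sum_range_succ, Finset.sum_range_succ, ih,
      Finset.sum_range_succ]
    have e1 : 2 * N / 2 = N := by omega
    have e2 : (2 * N + 1) / 2 = N := by omega
    rw [e1, e2]
    ring

/-- the coefficients are summable -/
lemma Dc_sum (h : Ctl K G) (m : ℕ) {t : ℝ} (ht : t ∈ I1) :
    ∑ c ∈ Finset.range (2 ^ (m + 1) + 1), ‖Dc K G m c t‖ ≤ 3 := by
  cases m with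
  | zero =>
    calc ∑ c ∈ Finset.range (2 ^ (0 + 1) + 1), ‖Dc K G 0 c t‖
        ≤ ∑ c ∈ Finset.range (2 ^ (0 + 1) + 1), (1 : ℝ) :=
          Finset.sum_le_sum fun c _ => h.2.2.1 _ (rp_mem G _ _) t ht
      _ = 3 := by norm_num
  | succ m =>
    have h1 : ∑ c ∈ Finset.range (2 ^ (m + 1 + 1) + 1), ‖Dc K G (m + 1) c t‖ ≤
        ∑ c ∈ Finset.range (2 * (2 ^ (m + 1) + 1)),
          (hs G m t (c / 2 + 1) - hs G m t (c / 2)) := by
      calc ∑ c ∈ Finset.range (2 ^ (m + 1 + 1) + 1), ‖Dc K G (m + 1) c t‖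
          ≤ ∑ c ∈ Finset.range (2 * (2 ^ (m + 1) + 1)), ‖Dc K G (m + 1) c t‖ := by
            apply Finset.sum_le_sum_of_subset_of_nonneg
            · apply Finset.range_mono
              rw [pow_succ 2 (m + 1)]
              omega
            · intro i _ _
              exact norm_nonneg _
        _ ≤ _ := Finset.sum_le_sum fun c _ => Dc_le h m c ht
    refine h1.trans ?_
    rw [sum_half (fun c => hs G m t (c + 1) - hs G m t c), Finset.sum_range_sub]
    linarith [hs_nonneg h m ht 0, hs_le_one h m ht (2 ^ (m + 1) + 1)]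

lemma Dc_meas (h : Ctl K G) (m c : ℕ) : Measurable (Dc K G m c) := by
  have h1 : ∀ s : ℝ, Measurable (K s) := fun s =>
    h.1.comp (by fun_prop : Measurable fun t : ℝ => (s, t))
  cases m with
  | zero => exact h1 _
  | succ m =>
    have e1 : Dc K G (m + 1) c = fun t => Dc K G (m + 1) c t := rfl
    rw [e1]
    simp only [Dc_succ]
    split_ifs with hc
    · exact (h1 _).sub (h1 _)
    · exact measurable_const

end Pool.Agent.Q85.RV
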