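import Mathlib
import Pool.Agent.Q85.RV.A
set_option autoImplicit false
set_option linter.unusedSectionVars false

/-! Products with the pieces. -/

namespace Pool.Agent.Q85.RV

open MeasureTheory Set Complex
open Pool.Agent.Q85.HN
open Pool.Agent.TH277.HT (ch ch_norm ch_cont lint_pi tuple_meas)
open scoped ENNReal NNReal

lemma ch_add (x y : ℝ) : ch (x + y) = ch x * ch y := by
  unfold ch
  rw [← Complex.exp_add]
  congr 1
  push_cast
  ring

lemma ch_nat_mul (x : ℝ) (w : ℕ) : ch (w * x) = ch x ^ w := by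
  unfold ch
  rw [← Complex.exp_nat_mul]
  congr 1
  push_cast
  ring

lemma ch_zero : ch 0 = 1 := by
  unfold ch
  simp

/-- orthogonality of the characters -/
lemma char_avg (R : ℕ) (hR : 0 < R) (c r : ℕ) (hc : c < R) (hr : r < R) :
    ∑ w ∈ Finset.range R, ch (w * (c / R)) * ch (w * (-(r / R))) = if c = r then (R : ℂ) else 0 := by
  have hR' : (R : ℝ) ≠ 0 := by exact_mod_cast hR.ne'
  have e1 : ∀ w : ℕ, ch (w * (c / R)) * ch (w * (-(r / R))) = ch (((c : ℝ) - r) / R) ^ w := by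
    intro w
    rw [← ch_add, ← ch_nat_mul]
    congr 1
    ring
  simp only [e1]
  split_ifs with h
  · rw [h, sub_self, zero_div, ch_zero]
    simp
  · have h1 : ch (((c : ℝ) - r) / R) ≠ 1 := by
      intro h2
      unfold ch at h2
      rw [Complex.exp_eq_one_iff] at h2
      obtain ⟨k, hk⟩ := h2
      have hpi : (2 * (Real.pi : ℂ) * I) ≠ 0 := by
        simp [Real.pi_ne_zero]
      have h3 : ((((c : ℝ) - r) / R : ℝ) : ℂ) = (k : ℂ) := by
        have h4 : (2 * (Real.pi : ℂ) * I) * ((((c : ℝ) - r) / R : ℝ) : ℂ) =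
            (2 * (Real.pi : ℂ) * I) * (k : ℂ) := by
          rw [hk]
          ring
        exact mul_left_cancel₀ hpi h4
      have h5 : ((c : ℝ) - r) / R = k := by exact_mod_cast h3
      rw [div_eq_iff hR'] at h5
      have h6 : (c : ℤ) - r = k * R := by exact_mod_cast h5
      have h7 : k = 0 := by
        by_contra hk0
        have h8 : (R : ℤ) ≤ |k * R| := by
          rw [abs_mul, Nat.abs_cast]
          have : 1 ≤ |k| := Int.one_le_abs hk0
          nlinarith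
        have h9 : |(c : ℤ) - r| < R := by
          rw [abs_lt]
          constructor <;> omega
        rw [h6] at h9
        omega
      rw [h7, zero_mul] at h6
      exact h (by omega)
    rw [geom_sum_eq h1]
    have h2 : ch (((c : ℝ) - r) / R) ^ R = 1 := by
      rw [← ch_nat_mul, mul_div_cancel₀ _ hR']
      unfold ch
      rw [Complex.exp_eq_one_iff]
      refine ⟨(c : ℤ) - r, ?_⟩
      push_cast
      ring
    rw [h2, sub_self, zero_div]

/-- the value at a cell as an average -/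
lemma edge_avg (R : ℕ) (hR : 0 < R) (c : ℕ) (hc : c < R) (D : ℕ → ℂ) :
    D c = (1 / (R : ℂ)) * ∑ w ∈ Finset.range R, ch (w * (c / R)) *
      ∑ r ∈ Finset.range R, ch (w * (-(r / R))) * D r := by
  have hR' : (R : ℂ) ≠ 0 := by exact_mod_cast hR.ne'
  have e1 : ∑ w ∈ Finset.range R, ch (w * (c / R)) *
      ∑ r ∈ Finset.range R, ch (w * (-(r / R))) * D r = R * D c := by
    simp only [Finset.mul_sum]
    rw [Finset.sum_comm]
    have e2 : ∀ r ∈ Finset.range R, ∑ w ∈ Finset.range R, ch (w * (c / R)) *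
        (ch (w * (-(r / R))) * D r) = (if c = r then (R : ℂ) else 0) * D r := by
      intro r hr
      rw [← char_avg R hR c r hc (Finset.mem_range.1 hr), Finset.sum_mul]
      apply Finset.sum_congr rfl
      intro w _
      ring
    rw [Finset.sum_congr rfl e2]
    simp [hc]
  rw [e1]
  field_simp

/-- the kernel with a bounded factor -/
noncomputable def kx {H : Type} [NormedAddCommGroup H] [InnerProductSpace ℂ H] {n : ℕ}
    (M : ContinuousMultilinearMap ℂ (fun _ : Fin n => H) ℂ) (a : Fin n → ℝ → H)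
    (P : (Fin n → ℝ) → ℂ) (ξ : Fin n → ℝ) : ℂ :=
  (Icc (-1 : Fin n → ℝ) 1).indicator (fun z => (M fun j => a j (z j)) * P z) ξ

lemma kx_eq {H : Type} [NormedAddCommGroup H] [InnerProductSpace ℂ H] {n : ℕ}
    (M : ContinuousMultilinearMap ℂ (fun _ : Fin n => H) ℂ) (a : Fin n → ℝ → H)
    (P : (Fin n → ℝ) → ℂ) (ξ : Fin n → ℝ) :
    kx M a P ξ = kc M a ξ * (Icc (-1 : Fin n → ℝ) 1).indicator P ξ := by
  unfold kx kc
  by_cases h : ξ ∈ Icc (-1 : Fin n → ℝ) 1
  · rw [indicator_of_mem h, indicator_of_mem h, indicator_of_mem h]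
  · rw [indicator_of_notMem h, indicator_of_notMem h, indicator_of_notMem h, mul_zero]

/-- admissible factors -/
def Adm {n : ℕ} (P : (Fin n → ℝ) → ℂ) : Prop :=
  Measurable P ∧ ∀ z ∈ Icc (-1 : Fin n → ℝ) 1, ‖P z‖ ≤ 1

section

variable {H : Type} [NormedAddCommGroup H] [InnerProductSpace ℂ H] [CompleteSpace H] {n : ℕ}
  {M : ContinuousMultilinearMap ℂ (fun _ : Fin n => H) ℂ} {a : Fin n → ℝ → H}
  {P : (Fin n → ℝ) → ℂ}

lemma kc_bound (hM : ∀ x, ‖M x‖ ≤ ∏ j, ‖x j‖) (ξ : Fin n → ℝ) :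
    ‖kc M a ξ‖ₑ ≤ ∏ j, ‖I1.indicator (a j) (ξ j)‖ₑ := by
  rw [kc_eq]
  simp only
  have e1 := hM fun j => I1.indicator (a j) (ξ j)
  rw [← ofReal_norm]
  refine (ENNReal.ofReal_le_ofReal e1).trans (le_of_eq ?_)
  rw [ENNReal.ofReal_prod_of_nonneg (fun j _ => norm_nonneg _)]
  simp only [ofReal_norm]

lemma kx_bound (hP : Adm P) (hM : ∀ x, ‖M x‖ ≤ ∏ j, ‖x j‖) (ξ : Fin n → ℝ) :
    ‖kx M a P ξ‖ₑ ≤ ∏ j, ‖I1.indicator (a j) (ξ j)‖ₑ := by
  rw [kx_eq, enorm_mul]
  calc ‖kc M a ξ‖ₑ * ‖(Icc (-1 : Fin n → ℝ) 1).indicator P ξ‖ₑ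
      ≤ (∏ j, ‖I1.indicator (a j) (ξ j)‖ₑ) * 1 := by
        refine mul_le_mul' (kc_bound hM ξ) ?_
        by_cases h : ξ ∈ Icc (-1 : Fin n → ℝ) 1
        · rw [indicator_of_mem h, ← ofReal_norm]
          exact ENNReal.ofReal_le_one.2 (hP.2 ξ h)
        · rw [indicator_of_notMem h, enorm_zero]
          exact zero_le
    _ = _ := mul_one _

lemma kc_meas (ha : ∀ j, StronglyMeasurable (a j)) : StronglyMeasurable (kc M a) := by
  rw [kc_eq]
  apply M.cont.comp_stronglyMeasurable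
  exact tuple_meas (fun (j : Fin n) (ξ : Fin n → ℝ) => I1.indicator (a j) (ξ j)) fun j =>
    ((ha j).indicator I1_meas).comp_measurable (measurable_pi_apply j)

lemma kx_meas (hP : Measurable P) (ha : ∀ j, StronglyMeasurable (a j)) :
    StronglyMeasurable (kx M a P) := by
  have e1 : kx M a P = fun ξ => kc M a ξ * (Icc (-1 : Fin n → ℝ) 1).indicator P ξ := by
    ext ξ
    exact kx_eq M a P ξ
  rw [e1]
  exact (kc_meas ha).mul (hP.indicator measurableSet_Icc).stronglyMeasurable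

lemma prod_L1 {p : ℝ} (hp : 1 ≤ p) (ha : ∀ j, StronglyMeasurable (a j)) :
    ∫⁻ ξ : Fin n → ℝ, ∏ j, ‖I1.indicator (a j) (ξ j)‖ₑ ≤ 2 ^ n * ∏ j, N1 p (a j) := by
  calc ∫⁻ ξ : Fin n → ℝ, ∏ j, ‖I1.indicator (a j) (ξ j)‖ₑ
      = ∏ j, ∫⁻ u, ‖I1.indicator (a j) u‖ₑ :=
        lint_pi (fun j u => ‖I1.indicator (a j) u‖ₑ) fun j => ((ha j).indicator I1_meas).enorm
    _ ≤ ∏ j, 2 * N1 p (a j) := Finset.prod_le_prod' fun j _ => N1_one hp (ha j)
    _ = 2 ^ n * ∏ j, N1 p (a j) := by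
        rw [Finset.prod_mul_distrib, Finset.prod_const, Finset.card_univ, Fintype.card_fin]

lemma kx_L1 {p : ℝ} (hp : 1 ≤ p) (hP : Adm P) (hM : ∀ x, ‖M x‖ ≤ ∏ j, ‖x j‖)
    (ha : ∀ j, StronglyMeasurable (a j)) :
    ∫⁻ ξ, ‖kx M a P ξ‖ₑ ≤ 2 ^ n * ∏ j, N1 p (a j) :=
  (lintegral_mono (kx_bound hP hM)).trans (prod_L1 hp ha)

lemma kx_int {p : ℝ} (hp : 1 ≤ p) (hP : Adm P) (hM : ∀ x, ‖M x‖ ≤ ∏ j, ‖x j‖)
    (ha : ∀ j, StronglyMeasurable (a j)) (hN : ∀ j, N1 p (a j) ≠ ⊤) : Integrable (kx M a P) := by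
  refine ⟨(kx_meas hP.1 ha).aestronglyMeasurable, ?_⟩
  refine lt_of_le_of_lt (kx_L1 hp hP hM ha) (lt_top_iff_ne_top.2 (ENNReal.mul_ne_top (by simp) ?_))
  exact ENNReal.prod_ne_top fun j _ => hN j

end

/-- the estimate with the factor `P` -/
def Bd {n : ℕ} (q p : ℝ) (P : (Fin n → ℝ) → ℂ) (C : ℝ≥0) : Prop := ∀ (H : Type)
    [NormedAddCommGroup H] [InnerProductSpace ℂ H] [CompleteSpace H]
    (M : ContinuousMultilinearMap ℂ (fun _ : Fin n => H) ℂ) (a : Fin n → ℝ → H),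
    (∀ x, ‖M x‖ ≤ ∏ j, ‖x j‖) → (∀ j, StronglyMeasurable (a j)) → (∀ j, N1 p (a j) ≠ ⊤) →
    eLpNorm (EN (kx M a P)) (ENNReal.ofReal q) volume ≤ C * ∏ j, N1 p (a j)

lemma EN_sum {n : ℕ} {ι : Type*} (S : Finset ι) (g : ι → (Fin n → ℝ) → ℂ)
    (hg : ∀ i ∈ S, Integrable (g i)) (c : ℂ) (y : (Fin n → ℝ) × ℝ) :
    EN (fun ξ => c * ∑ i ∈ S, g i ξ) y = c * ∑ i ∈ S, EN (g i) y := by
  unfold EN
  have e1 : ∀ ξ, ch (pn ξ y) * (c * ∑ i ∈ S, g i ξ) = c * ∑ i ∈ S, ch (pn ξ y) * g i ξ := by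
    intro ξ
    rw [Finset.mul_sum, Finset.mul_sum, Finset.mul_sum]
    apply Finset.sum_congr rfl
    intro i _
    ring
  simp only [e1]
  rw [integral_const_mul, integral_finsetSum]
  intro i hi
  refine Integrable.mono (hg i hi) (((ch_cont.comp (pn_cont2 y)).aestronglyMeasurable).mul
    (hg i hi).aestronglyMeasurable) (ae_of_all _ fun ξ => ?_)
  rw [norm_mul, ch_norm, one_mul]

lemma N1_smul_le {H : Type} [NormedAddCommGroup H] [InnerProductSpace ℂ H] {p : ℝ}
    {a : ℝ → H} {σ : ℝ → ℂ} {κ : ℝ} (hσ : ∀ u ∈ I1, ‖σ u‖ ≤ κ) :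
    N1 p (fun u => σ u • a u) ≤ ENNReal.ofReal κ * N1 p a := by
  unfold N1
  apply eLpNorm_le_mul_eLpNorm_of_ae_le_mul
  rw [ae_restrict_iff' I1_meas]
  refine ae_of_all _ fun u hu => ?_
  rw [norm_smul]
  exact mul_le_mul_of_nonneg_right (hσ u hu) (norm_nonneg _)

/-- Multiplication with a piece. -/
theorem avg {n : ℕ} {q p : ℝ} (hq : 1 ≤ q) (hp : 1 ≤ p) {P : (Fin n → ℝ) → ℂ} (hP : Adm P)
    {C : ℝ≥0} (hC : Bd q p P C) {i j : Fin n} (hij : i ≠ j) (R : ℕ) (hR : 0 < R) (c : ℝ → ℕ)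
    (hc : Measurable c) (hcR : ∀ s ∈ I1, c s < R) (D : ℕ → ℝ → ℂ) (hD : ∀ r, Measurable (D r))
    (hD3 : ∀ t ∈ I1, ∑ r ∈ Finset.range R, ‖D r t‖ ≤ 3) :
    Bd q p (fun z => P z * D (c (z i)) (z j)) (3 * C) := by
  intro H _ _ _ M a hM ha hN
  set σ : ℕ → Fin n → ℝ → ℂ := fun w l u =>
    if l = i then ch (w * (c u / R)) else
      if l = j then ∑ r ∈ Finset.range R, ch (w * (-(r / R))) * D r u else 1 with hσ
  set κ : Fin n → ℝ := fun l => if l = j then 3 else 1 with hκ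
  have hκ0 : ∀ l, 0 ≤ κ l := by
    intro l
    rw [hκ]
    simp only
    split_ifs <;> norm_num
  have hσκ : ∀ w l u, u ∈ I1 → ‖σ w l u‖ ≤ κ l := by
    intro w l u hu
    rw [hσ, hκ]
    simp only
    by_cases h1 : l = i
    · rw [if_pos h1, ch_norm, if_neg (by rw [h1]; exact hij)]
    · rw [if_neg h1]
      by_cases h2 : l = j
      · rw [if_pos h2, if_pos h2]
        refine (norm_sum_le _ _).trans ?_
        refine le_trans (le_of_eq ?_) (hD3 u hu)
        apply Finset.sum_congr rfl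
        intro r _
        rw [norm_mul, ch_norm, one_mul]
      · rw [if_neg h2, if_neg h2, norm_one]
  have hσm : ∀ w l, Measurable (σ w l) := by
    intro w l
    rw [hσ]
    simp only
    by_cases h1 : l = i
    · simp only [h1, if_true]
      have : Measurable fun u : ℝ => (w : ℝ) * ((c u : ℝ) / R) :=
        ((measurable_from_nat.comp hc : Measurable fun u => ((c u : ℕ) : ℝ)).div_const _).const_mul _
      exact ch_cont.measurable.comp this
    · simp only [h1, if_false]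
      by_cases h2 : l = j
      · simp only [h2, if_true]
        apply Finset.measurable_sum
        intro r _
        exact (hD r).const_mul _
      · simp only [h2, if_false]
        exact measurable_const
  set b : ℕ → Fin n → ℝ → H := fun w l u => σ w l u • a l u with hb
  have hbm : ∀ w l, StronglyMeasurable (b w l) := fun w l =>
    (hσm w l).stronglyMeasurable.smul (ha l)
  have hbN : ∀ w l, N1 p (b w l) ≤ ENNReal.ofReal (κ l) * N1 p (a l) := fun w l =>
    N1_smul_le (hσκ w l)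
  have hbt : ∀ w l, N1 p (b w l) ≠ ⊤ := fun w l =>
    ne_top_of_le_ne_top (ENNReal.mul_ne_top ENNReal.ofReal_ne_top (hN l)) (hbN w l)
  have hprod : ∀ w, ∏ l, N1 p (b w l) ≤ 3 * ∏ l, N1 p (a l) := by
    intro w
    refine (Finset.prod_le_prod' fun l _ => hbN w l).trans ?_
    rw [Finset.prod_mul_distrib]
    refine mul_le_mul' (le_of_eq ?_) le_rfl
    rw [← ENNReal.ofReal_prod_of_nonneg fun l _ => hκ0 l, hκ]
    simp
  have hi : ∀ w ∈ Finset.range R, Integrable (kx M (b w) P) := fun w _ =>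
    kx_int hp hP hM (hbm w) (hbt w)
  have hker : kx M a (fun z => P z * D (c (z i)) (z j)) =
      fun ξ => (1 / (R : ℂ)) * ∑ w ∈ Finset.range R, kx M (b w) P ξ := by
    ext ξ
    unfold kx
    by_cases h : ξ ∈ Icc (-1 : Fin n → ℝ) 1
    · simp only [indicator_of_mem h]
      have hI : ∀ l, ξ l ∈ I1 := fun l => ⟨h.1 l, h.2 l⟩
      have e1 : ∀ w, (M fun l => b w l (ξ l)) = (ch (w * (c (ξ i) / R)) *
          ∑ r ∈ Finset.range R, ch (w * (-(r / R))) * D r (ξ j)) * M fun l => a l (ξ l) := by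
        intro w
        rw [hb]
        simp only
        rw [ContinuousMultilinearMap.map_smul_univ, smul_eq_mul]
        congr 1
        rw [Finset.prod_eq_mul i j hij]
        · rw [hσ]
          simp only [if_true]
          rw [if_neg hij.symm]
        · rintro l - ⟨h1, h2⟩
          rw [hσ]
          simp only [h1, h2, if_false]
        · intro hc
          exact absurd (Finset.mem_univ _) hc
        · intro hc
          exact absurd (Finset.mem_univ _) hc
      simp only [e1]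
      have e2 := edge_avg R hR (c (ξ i)) (hcR _ (hI i)) (fun r => D r (ξ j))
      rw [e2]
      have e3 : ∀ (A B : ℂ) (F : ℕ → ℂ), A * (B * ((1 / (R : ℂ)) * ∑ w ∈ Finset.range R, F w)) =
          (1 / (R : ℂ)) * ∑ w ∈ Finset.range R, F w * A * B := by
        intro A B F
        rw [Finset.mul_sum, Finset.mul_sum, Finset.mul_sum, Finset.mul_sum]
        apply Finset.sum_congr rfl
        intro w _
        ring
      rw [e3]
    · simp only [indicator_of_notMem h]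
      simp
  rw [hker]
  have hEN : EN (fun ξ => (1 / (R : ℂ)) * ∑ w ∈ Finset.range R, kx M (b w) P ξ) =
      (1 / (R : ℂ)) • ∑ w ∈ Finset.range R, EN (kx M (b w) P) := by
    ext y
    rw [EN_sum _ _ hi]
    simp [smul_eq_mul, Finset.sum_apply]
  rw [hEN, eLpNorm_const_smul]
  have hq' : (1 : ℝ≥0∞) ≤ ENNReal.ofReal q := by
    rw [← ENNReal.ofReal_one]
    exact ENNReal.ofReal_le_ofReal hq
  have hR0 : (R : ℝ≥0∞) ≠ 0 := by exact_mod_cast hR.ne'
  have hRt : (R : ℝ≥0∞) ≠ ⊤ := ENNReal.natCast_ne_top R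
  have hen : ‖(1 / (R : ℂ))‖ₑ = (R : ℝ≥0∞)⁻¹ := by
    rw [← ofReal_norm, norm_div, norm_one, Complex.norm_natCast, one_div,
      ENNReal.ofReal_inv_of_pos (by exact_mod_cast hR), ENNReal.ofReal_natCast]
  rw [hen]
  calc (R : ℝ≥0∞)⁻¹ * eLpNorm (∑ w ∈ Finset.range R, EN (kx M (b w) P)) (ENNReal.ofReal q) volume
      ≤ (R : ℝ≥0∞)⁻¹ * ∑ w ∈ Finset.range R,
          eLpNorm (EN (kx M (b w) P)) (ENNReal.ofReal q) volume := by
        refine mul_le_mul' le_rfl (eLpNorm_sum_le (fun w hw => ?_) hq')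
        exact (EN_cont (hi w hw)).aestronglyMeasurable
    _ ≤ (R : ℝ≥0∞)⁻¹ * ∑ w ∈ Finset.range R, (C * (3 * ∏ l, N1 p (a l))) := by
        refine mul_le_mul' le_rfl (Finset.sum_le_sum fun w _ => ?_)
        exact (hC H M (b w) hM (hbm w) (hbt w)).trans (mul_le_mul' le_rfl (hprod w))
    _ = ((R : ℝ≥0∞)⁻¹ * R) * (C * (3 * ∏ l, N1 p (a l))) := by
        rw [Finset.sum_const, Finset.card_range, nsmul_eq_mul]
        ring
    _ = _ := by
        rw [ENNReal.inv_mul_cancel hR0 hRt]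
        push_cast
        ring

end Pool.Agent.Q85.RV
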