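import Mathlib
import Pool.Agent.Y183.TS.D
import Pool.Agent.Q85.RV.B
set_option autoImplicit false
set_option linter.unusedSectionVars false

/-! The Tomas-Stein bound and the size of the pieces. -/

namespace Pool.Agent.Q85.RV

open MeasureTheory Set Complex
open Pool.Agent.Q85.HN
open Pool.Agent.TH277.HT (ch ch_norm ch_cont ch_sum lint_pi tuple_meas)
open scoped ENNReal NNReal

lemma em_eq {n : ℕ} (y : Fin n → ℝ) (t : ℝ) (v : Fin n → ℝ) :
    Pool.Agent.W771.MD.em y t v = ch (pn v (y, t)) := by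
  unfold Pool.Agent.W771.MD.em pn
  rw [Finset.sum_mul, ← Finset.sum_add_distrib, ch_sum]
  rfl

/-- The Tomas-Stein theorem for the operator `EN`. -/
theorem tomasN (n : ℕ) (hn : 0 < n) (q : ℝ) (hq : 2 * ((n : ℝ) + 2) / n < q) : ∃ C : ℝ≥0,
    ∀ h : (Fin n → ℝ) → ℂ, StronglyMeasurable h → Integrable h →
    (∀ x, x ∉ Icc (-1 : Fin n → ℝ) 1 → h x = 0) → ∀ K : ℝ≥0∞, K ≠ ⊤ →
    ∫⁻ x, ‖h x‖ₑ ^ 2 ≤ K ^ 2 → ∫⁻ y, ‖EN h y‖ₑ ^ q ≤ (C * K) ^ q := by
  obtain ⟨C, hC⟩ := Pool.Agent.Y183.TS.tomas n hn q hq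
  refine ⟨C, ?_⟩
  intro h hm hi h0 K hK hN
  have hEm : Measurable fun y => ‖EN h y‖ₑ ^ q := (EN_cont hi).enorm.measurable.pow_const q
  refine le_trans (le_of_eq ?_) (hC h hm.measurable K hK hN)
  rw [Measure.volume_eq_prod, lintegral_prod_symm _ hEm.aemeasurable]
  apply lintegral_congr
  intro t
  apply lintegral_congr
  intro y
  congr 2
  unfold EN
  rw [setIntegral_eq_integral_of_forall_compl_eq_zero]
  · apply integral_congr_ae
    refine ae_of_all _ fun v => ?_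
    simp only
    rw [em_eq, mul_comm]
  · intro v hv
    rw [h0 v (fun hc => hv ⟨hc.1, hc.2⟩), zero_mul]

lemma pair_meas {n : ℕ} (i j : Fin n) : Measurable fun z : Fin n → ℝ => ((z i, z j) : ℝ × ℝ) :=
  (measurable_pi_apply i).prodMk (measurable_pi_apply j)

/-- integration over the cube of a function of two coordinates -/
lemma cube_pair {n : ℕ} {i j : Fin n} (hij : i ≠ j) (φ : ℝ → ℝ → ℝ≥0∞)
    (hφ : Measurable (Function.uncurry φ)) (δ : ℝ≥0∞)
    (h : ∀ s ∈ I1, ∫⁻ t in I1, φ s t ≤ δ) :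
    ∫⁻ z in Icc (-1 : Fin n → ℝ) 1, φ (z i) (z j) ≤ 2 ^ n * δ := by
  classical
  set μ : Fin n → Measure ℝ := fun _ => volume.restrict I1 with hμ
  have hfin : ∀ l, IsFiniteMeasure (μ l) := fun _ => I1_fin
  have hpi : (volume : Measure (Fin n → ℝ)).restrict (Icc (-1 : Fin n → ℝ) 1) = Measure.pi μ := by
    rw [hμ, ← Measure.restrict_pi_pi, ← volume_pi]
    congr 1
    ext z
    simp only [mem_Icc, mem_univ_pi, I1, Pi.le_def, Pi.neg_apply, Pi.one_apply]
    exact ⟨fun h l => ⟨h.1 l, h.2 l⟩, fun h => ⟨fun l => (h l).1, fun l => (h l).2⟩⟩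
  set F : (Fin n → ℝ) → ℝ≥0∞ := fun z => I1.indicator (fun _ => (1 : ℝ≥0∞)) (z i) * φ (z i) (z j)
    with hF
  have hFm : Measurable F := by
    apply Measurable.mul
    · exact (measurable_const.indicator I1_meas).comp (measurable_pi_apply i)
    · exact hφ.comp (pair_meas i j)
  have e1 : ∫⁻ z in Icc (-1 : Fin n → ℝ) 1, φ (z i) (z j) =
      ∫⁻ z in Icc (-1 : Fin n → ℝ) 1, F z := by
    apply setLIntegral_congr_fun measurableSet_Icc
    intro z hz
    simp only [hF]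
    rw [indicator_of_mem (show z i ∈ I1 from ⟨hz.1 i, hz.2 i⟩), one_mul]
  rw [e1, hpi, lintegral_eq_lmarginal_univ (fun _ => 0),
    lmarginal_erase' F hFm (Finset.mem_univ j)]
  have e2 : (fun x : Fin n → ℝ => ∫⁻ t, F (Function.update x j t) ∂μ j) ≤ fun _ => δ := by
    intro x
    simp only [hF]
    have e3 : ∀ t : ℝ, Function.update x j t i = x i := fun t => Function.update_of_ne hij t x
    have e4 : ∀ t : ℝ, Function.update x j t j = t := fun t => Function.update_self j t x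
    simp only [e3, e4]
    by_cases hx : x i ∈ I1
    · simp only [indicator_of_mem hx, one_mul]
      exact h _ hx
    · simp only [indicator_of_notMem hx, zero_mul, lintegral_zero]
      exact zero_le
  refine (lmarginal_mono e2 _).trans ?_
  unfold lmarginal
  rw [lintegral_const, Measure.pi_univ, mul_comm]
  refine mul_le_mul' ?_ le_rfl
  have e5 : ∀ l, μ l univ = 2 := by
    intro l
    rw [hμ]
    simp only
    rw [Measure.restrict_apply_univ, I1_vol]
  simp only [e5]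
  rw [Finset.prod_const]
  apply pow_le_pow_right₀ (by norm_num)
  refine (Finset.card_le_univ _).trans ?_
  simp only [Fintype.card_coe]
  refine (Finset.card_le_univ _).trans ?_
  simp

lemma df_meas {K : ℝ → ℝ → ℂ} {G : ℝ → ℝ → ℝ} (h : Ctl K G) (m : ℕ) :
    Measurable (Function.uncurry (df K G m)) := by
  have h1 : Measurable fun x : ℕ × ℝ => Dc K G m x.1 x.2 :=
    measurable_from_prod_countable_right fun c => Dc_meas h m c
  have h2 : Measurable fun z : ℝ × ℝ => (cl G m z.1, z.2) :=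
    ((cl_meas h.2.1 m).comp measurable_fst).prodMk measurable_snd
  exact h1.comp h2

lemma ap_meas {K : ℝ → ℝ → ℂ} {G : ℝ → ℝ → ℝ} (h : Ctl K G) (m : ℕ) :
    Measurable (Function.uncurry (ap K G m)) := by
  have h0 : ∀ s : ℝ, Measurable (K s) := fun s =>
    h.1.comp (by fun_prop : Measurable fun t : ℝ => (s, t))
  have h1 : Measurable fun x : ℕ × ℝ => K (rp G m x.1) x.2 :=
    measurable_from_prod_countable_right fun c => h0 (rp G m c)
  have h2 : Measurable fun z : ℝ × ℝ => (cl G m z.1, z.2) :=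
    ((cl_meas h.2.1 m).comp measurable_fst).prodMk measurable_snd
  exact h1.comp h2

/-- a small factor -/
def Sm {n : ℕ} (Δ : (Fin n → ℝ) → ℂ) (δ : ℝ≥0∞) : Prop :=
  Adm Δ ∧ ∫⁻ z in Icc (-1 : Fin n → ℝ) 1, ‖Δ z‖ₑ ≤ δ

lemma df_small {n : ℕ} {i j : Fin n} (hij : i ≠ j) {K : ℝ → ℝ → ℂ} {G : ℝ → ℝ → ℝ}
    (h : Ctl K G) (m : ℕ) :
    Sm (fun z : Fin n → ℝ => df K G m (z i) (z j)) (2 ^ n * ENNReal.ofReal (2 / 2 ^ m)) := by
  refine ⟨⟨?_, ?_⟩, ?_⟩
  · exact (df_meas h m).comp (pair_meas i j)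
  · intro z hz
    exact df_le_one h m ⟨hz.1 i, hz.2 i⟩ ⟨hz.1 j, hz.2 j⟩
  · exact cube_pair hij (fun s t => ‖df K G m s t‖ₑ) (df_meas h m).enorm _ fun s hs => df_int h m hs

lemma N1_full {H : Type} [NormedAddCommGroup H] {p : ℝ} (hp : 0 < p) (a : ℝ → H) :
    ∫⁻ u, ‖I1.indicator a u‖ₑ ^ p = N1 p a ^ p := by
  rw [← N1_pow hp a]
  have e1 : (Icc (-1 : ℝ) 1) = I1 := rfl
  rw [e1, ← lintegral_indicator I1_meas]
  apply lintegral_congr
  intro u
  by_cases hu : u ∈ I1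
  · rw [indicator_of_mem hu, indicator_of_mem hu, indicator_of_mem hu]
  · rw [indicator_of_notMem hu, indicator_of_notMem hu, enorm_zero, ENNReal.zero_rpow_of_pos hp]

section

variable {H : Type} [NormedAddCommGroup H] [InnerProductSpace ℂ H] [CompleteSpace H] {n : ℕ}
  {M : ContinuousMultilinearMap ℂ (fun _ : Fin n => H) ℂ} {a : Fin n → ℝ → H}
  {P Δ : (Fin n → ℝ) → ℂ}

/-- Hölder with a small factor -/
lemma kx_small {p r : ℝ} (hr : 0 < r) (hrp : r < p) (hr2 : 1 - r / p ≤ r) (hP : Adm P) {δ : ℝ≥0∞}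
    (hΔ : Sm Δ δ) (hM : ∀ x, ‖M x‖ ≤ ∏ j, ‖x j‖) (ha : ∀ j, StronglyMeasurable (a j)) :
    ∫⁻ ξ, ‖kx M a (fun z => P z * Δ z) ξ‖ₑ ^ r ≤
      (∏ j, N1 p (a j)) ^ r * δ ^ (1 - r / p) := by
  have hp : 0 < p := hr.trans hrp
  have hb0 : 0 < 1 - r / p := by
    have : r / p < 1 := by rwa [div_lt_one hp]
    linarith
  set Q : Set (Fin n → ℝ) := Icc (-1) 1 with hQ
  set F : (Fin n → ℝ) → ℝ≥0∞ := fun ξ => ∏ j, ‖I1.indicator (a j) (ξ j)‖ₑ with hF
  set E : (Fin n → ℝ) → ℝ≥0∞ := fun ξ => ‖Q.indicator Δ ξ‖ₑ with hE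
  have hE1 : ∀ ξ, E ξ ≤ 1 := by
    intro ξ
    simp only [hE]
    by_cases hx : ξ ∈ Q
    · rw [indicator_of_mem hx, ← ofReal_norm]
      exact ENNReal.ofReal_le_one.2 (hΔ.1.2 ξ hx)
    · rw [indicator_of_notMem hx, enorm_zero]
      exact zero_le
  have h1 : ∀ ξ, ‖kx M a (fun z => P z * Δ z) ξ‖ₑ ≤ F ξ * E ξ := by
    intro ξ
    have e1 : kx M a (fun z => P z * Δ z) ξ = kx M a P ξ * Q.indicator Δ ξ := by
      unfold kx
      by_cases hx : ξ ∈ Q
      · rw [indicator_of_mem hx, indicator_of_mem hx, indicator_of_mem hx]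
        ring
      · rw [indicator_of_notMem hx, indicator_of_notMem hx, indicator_of_notMem hx, zero_mul]
    rw [e1, enorm_mul]
    exact mul_le_mul' (kx_bound hP hM ξ) le_rfl
  have hFm : Measurable F := by
    apply Finset.measurable_prod
    intro j _
    exact ((ha j).indicator I1_meas).enorm.comp (measurable_pi_apply j)
  have hEm : Measurable E := (hΔ.1.1.indicator measurableSet_Icc).enorm
  have e2 : ∀ ξ, F ξ ^ r = (F ξ ^ p) ^ (r / p) := by
    intro ξ
    rw [← ENNReal.rpow_mul]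
    congr 1
    field_simp
  calc ∫⁻ ξ, ‖kx M a (fun z => P z * Δ z) ξ‖ₑ ^ r
      ≤ ∫⁻ ξ, (F ξ ^ p) ^ (r / p) * E ξ ^ (1 - r / p) := by
        apply lintegral_mono
        intro ξ
        simp only
        refine (ENNReal.rpow_le_rpow (h1 ξ) hr.le).trans ?_
        rw [ENNReal.mul_rpow_of_nonneg _ _ hr.le, e2 ξ]
        refine mul_le_mul' le_rfl ?_
        exact ENNReal.rpow_le_rpow_of_exponent_ge (hE1 ξ) hr2
    _ ≤ (∫⁻ ξ, F ξ ^ p) ^ (r / p) * (∫⁻ ξ, E ξ) ^ (1 - r / p) :=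
        ENNReal.lintegral_mul_norm_pow_le (hFm.pow_const p).aemeasurable hEm.aemeasurable
          (by positivity) hb0.le (by ring)
    _ ≤ _ := by
        have e3 : ∫⁻ ξ, F ξ ^ p = (∏ j, N1 p (a j)) ^ p := by
          simp only [hF]
          have e4 : ∀ ξ : Fin n → ℝ, (∏ j, ‖I1.indicator (a j) (ξ j)‖ₑ) ^ p =
              ∏ j, ‖I1.indicator (a j) (ξ j)‖ₑ ^ p := fun ξ =>
            (ENNReal.prod_rpow_of_nonneg hp.le).symm
          simp only [e4]
          rw [lint_pi (fun j u => ‖I1.indicator (a j) u‖ₑ ^ p) fun j =>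
            (((ha j).indicator I1_meas).enorm).pow_const p]
          simp only [N1_full hp]
          exact ENNReal.prod_rpow_of_nonneg hp.le
        have e5 : ∫⁻ ξ, E ξ ≤ δ := by
          refine le_trans (le_of_eq ?_) hΔ.2
          rw [← lintegral_indicator measurableSet_Icc]
          apply lintegral_congr
          intro ξ
          simp only [hE]
          by_cases hx : ξ ∈ Q
          · rw [indicator_of_mem hx, indicator_of_mem hx]
          · rw [indicator_of_notMem hx, indicator_of_notMem hx, enorm_zero]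
        rw [e3, ← ENNReal.rpow_mul, mul_div_cancel₀ _ hp.ne']
        exact mul_le_mul' le_rfl (ENNReal.rpow_le_rpow e5 hb0.le)

end

lemma adm_mul {n : ℕ} {P Q : (Fin n → ℝ) → ℂ} (hP : Adm P) (hQ : Adm Q) :
    Adm fun z => P z * Q z := by
  refine ⟨hP.1.mul hQ.1, fun z hz => ?_⟩
  rw [norm_mul]
  exact mul_le_one₀ (hP.2 z hz) (norm_nonneg _) (hQ.2 z hz)

end Pool.Agent.Q85.RV
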