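import Mathlib
import Pool.Agent.Q85.RV.C
import Pool.Agent.Q85.LR.E
set_option autoImplicit false
set_option linter.unusedSectionVars false

/-! The induction step. -/

namespace Pool.Agent.Q85.RV

open MeasureTheory Set Complex Filter Topology
open Pool.Agent.Q85.HN
open Pool.Agent.Q85.LR (interp)
open Pool.Agent.TH277.HT (ch ch_norm ch_cont ch_sum lint_pi tuple_meas)
open scoped ENNReal NNReal

/-- the conditions on the exponents -/
def Cond (n : ℕ) (q p : ℝ) : Prop :=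
  2 * ((n : ℝ) + 1) / n < q ∧ 2 < p ∧ 1 / p < 1 - ((n : ℝ) + 2) / (n * q)

lemma params {n : ℕ} (hn : 2 ≤ n) {q p : ℝ} (h : Cond n q p) :
    ∃ q0 q1 θ : ℝ, Cond n q0 p ∧ 2 * ((n : ℝ) + 2) / n < q1 ∧ 0 < θ ∧ θ < 1 ∧ 0 < q1 ∧
      1 / q = θ / q0 + (1 - θ) / q1 := by
  obtain ⟨h1, h2, h3⟩ := h
  have hnR : (2 : ℝ) ≤ n := by exact_mod_cast hn
  have hn0 : (0 : ℝ) < n := by linarith
  have hq0 : 0 < q := lt_trans (by positivity) h1
  have hp0 : 0 < p := by linarith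
  have hp1 : 0 < 1 - 1 / p := by
    have : 1 / p < 1 := by
      rw [div_lt_one hp0]
      linarith
    linarith
  set m : ℝ := max (2 * ((n : ℝ) + 1) / n) ((n + 2) / (n * (1 - 1 / p))) with hm
  have hmq : m < q := by
    apply max_lt h1
    rw [div_lt_iff₀ (by positivity)]
    have e1 : ((n : ℝ) + 2) / (n * q) < 1 - 1 / p := by linarith
    rw [div_lt_iff₀ (by positivity)] at e1
    linarith
  have hm1 : 2 * ((n : ℝ) + 1) / n ≤ m := le_max_left _ _
  have hm2 : ((n : ℝ) + 2) / (n * (1 - 1 / p)) ≤ m := le_max_right _ _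
  set q0 : ℝ := (q + m) / 2 with hq0d
  have a1 : m < q0 := by rw [hq0d]; linarith
  have a2 : q0 < q := by rw [hq0d]; linarith
  have a0 : 0 < q0 := by
    have : 0 < 2 * ((n : ℝ) + 1) / n := by positivity
    linarith
  set q1 : ℝ := max q (2 * ((n : ℝ) + 2) / n) + 1 with hq1
  have b1 : q < q1 := by
    have := le_max_left q (2 * ((n : ℝ) + 2) / n)
    linarith
  have b2 : 2 * ((n : ℝ) + 2) / n < q1 := by
    have := le_max_right q (2 * ((n : ℝ) + 2) / n)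
    linarith
  have b0 : 0 < q1 := hq0.trans b1
  have c1 : 1 / q1 < 1 / q := one_div_lt_one_div_of_lt hq0 b1
  have c2 : 1 / q < 1 / q0 := one_div_lt_one_div_of_lt a0 a2
  have c3 : 0 < 1 / q0 - 1 / q1 := by linarith
  refine ⟨q0, q1, (1 / q - 1 / q1) / (1 / q0 - 1 / q1), ⟨by linarith, h2, ?_⟩, b2, ?_, ?_, b0, ?_⟩
  · have e1 : ((n : ℝ) + 2) / (n * (1 - 1 / p)) < q0 := by linarith
    rw [div_lt_iff₀ (by positivity)] at e1
    have e2 : ((n : ℝ) + 2) / (n * q0) < 1 - 1 / p := by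
      rw [div_lt_iff₀ (by positivity)]
      linarith
    linarith
  · exact div_pos (by linarith) c3
  · rw [div_lt_one c3]
    linarith
  · set θ : ℝ := (1 / q - 1 / q1) / (1 / q0 - 1 / q1) with hθ
    have e1 : θ * (1 / q0 - 1 / q1) = 1 / q - 1 / q1 := by
      rw [hθ, div_mul_cancel₀ _ c3.ne']
    have e2 : θ / q0 + (1 - θ) / q1 = θ * (1 / q0 - 1 / q1) + 1 / q1 := by ring
    rw [e2, e1]
    ring

lemma eL {n : ℕ} {t : ℝ} (ht : 0 < t) (g : (Fin n → ℝ) × ℝ → ℂ) :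
    eLpNorm g (ENNReal.ofReal t) volume = (∫⁻ y, ‖g y‖ₑ ^ t) ^ (1 / t) := by
  rw [eLpNorm_eq_lintegral_rpow_enorm_toReal (by simpa using ht) ENNReal.ofReal_ne_top,
    ENNReal.toReal_ofReal ht.le]

lemma one_lt_of_cond {n : ℕ} (hn : 2 ≤ n) {q p : ℝ} (h : Cond n q p) : 2 < q := by
  have hnR : (2 : ℝ) ≤ n := by exact_mod_cast hn
  have hn0 : (0 : ℝ) < n := by linarith
  refine lt_trans ?_ h.1
  rw [lt_div_iff₀ hn0]
  linarith

/-- The bound of one piece. -/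
theorem piece {n : ℕ} (hn : 2 ≤ n) {q p q0 q1 θ : ℝ} (h : Cond n q p) (h0 : Cond n q0 p)
    (h1 : 2 * ((n : ℝ) + 2) / n < q1) (hq1 : 0 < q1) (hθ0 : 0 < θ) (hθ1 : θ < 1)
    (hqq : 1 / q = θ / q0 + (1 - θ) / q1) (C0 : ℝ≥0) : ∃ C : ℝ≥0, ∀ (P : (Fin n → ℝ) → ℂ),
    Adm P → Bd q0 p P C0 → ∀ (i j : Fin n), i ≠ j → ∀ (K : ℝ → ℝ → ℂ) (G : ℝ → ℝ → ℝ),
    Ctl K G → ∀ (m : ℕ) (H : Type)
    [NormedAddCommGroup H] [InnerProductSpace ℂ H] [CompleteSpace H]
    (M : ContinuousMultilinearMap ℂ (fun _ : Fin n => H) ℂ) (a : Fin n → ℝ → H),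
    (∀ x, ‖M x‖ ≤ ∏ j, ‖x j‖) → (∀ j, StronglyMeasurable (a j)) → (∀ j, N1 p (a j) ≠ ⊤) →
    eLpNorm (EN (kx M a (fun z => P z * df K G m (z i) (z j)))) (ENNReal.ofReal q) volume ≤
      C * (ENNReal.ofReal (2 ^ (-((1 - 2 / p) / 2 * (1 - θ)) : ℝ))) ^ m * ∏ j, N1 p (a j) := by
  have hp2 := h.2.1
  have hp0 : 0 < p := by linarith
  have hq2 := one_lt_of_cond hn h
  have hq02 := one_lt_of_cond hn h0
  have hθ2 : 0 < 1 - θ := by linarith
  obtain ⟨C1, hC1⟩ := tomasN n (by omega) q1 h1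
  set β : ℝ := (1 - 2 / p) / 2 with hβ
  have hβ0 : 0 < β := by
    have : 2 / p < 1 := by rwa [div_lt_one hp0]
    rw [hβ]
    linarith
  set ρ : ℝ := β * (1 - θ) with hρ
  have hρ0 : 0 < ρ := mul_pos hβ0 hθ2
  refine ⟨(3 * C0) ^ θ * C1 ^ (1 - θ) * (2 ^ (n + 1)) ^ ρ, ?_⟩
  intro P hP hB i j hij K G hK m H _ _ _ M a hM ha hN
  set A : ℝ≥0∞ := ∏ j, N1 p (a j) with hA
  have hAt : A ≠ ⊤ := ENNReal.prod_ne_top fun j _ => hN j
  set f : (Fin n → ℝ) → ℂ := kx M a (fun z => P z * df K G m (z i) (z j)) with hf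
  have hsm := df_small (n := n) hij hK m
  have hadm : Adm fun z : Fin n → ℝ => P z * df K G m (z i) (z j) := adm_mul hP hsm.1
  have hfi : Integrable f := kx_int (by linarith) hadm hM ha hN
  have hfm : StronglyMeasurable f := kx_meas hadm.1 ha
  have hEm : Measurable fun y => ‖EN f y‖ₑ := (EN_cont hfi).enorm.measurable
  have b0 : eLpNorm (EN f) (ENNReal.ofReal q0) volume ≤ 3 * C0 * A := by
    have := avg (by linarith) (by linarith) hP hB hij (2 ^ (m + 1) + 1) (by positivity) (cl G m)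
      (cl_meas hK.2.1 m) (fun s hs => cl_lt hK m hs) (Dc K G m) (Dc_meas hK m)
      (fun t ht => Dc_sum hK m ht) H M a hM ha hN
    push_cast at this
    exact this
  set δ : ℝ≥0∞ := 2 ^ n * ENNReal.ofReal (2 / 2 ^ m) with hδ
  have hδt : δ ≠ ⊤ := ENNReal.mul_ne_top (by simp) ENNReal.ofReal_ne_top
  have hL2 : ∫⁻ x, ‖f x‖ₑ ^ 2 ≤ (A * δ ^ β) ^ 2 := by
    have h3 := kx_small (r := 2) (by norm_num) hp2 (by
      have : 0 < 2 / p := by positivity
      linarith) hP hsm hM ha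
    have e1 : ∀ x : ℝ≥0∞, x ^ (2 : ℝ) = x ^ 2 := fun x => by
      rw [← ENNReal.rpow_natCast]
      norm_num
    simp only [e1] at h3
    refine h3.trans (le_of_eq ?_)
    rw [mul_pow]
    congr 1
    rw [← ENNReal.rpow_natCast, ← ENNReal.rpow_mul]
    congr 1
    rw [hβ]
    push_cast
    ring
  have hKt : A * δ ^ β ≠ ⊤ := ENNReal.mul_ne_top hAt (ENNReal.rpow_ne_top_of_nonneg hβ0.le hδt)
  have b1' := hC1 f hfm hfi (fun x hx => by
    rw [hf]
    unfold kx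
    exact indicator_of_notMem hx _) (A * δ ^ β) hKt hL2
  have b1 : eLpNorm (EN f) (ENNReal.ofReal q1) volume ≤ C1 * (A * δ ^ β) := by
    rw [eL hq1]
    calc (∫⁻ y, ‖EN f y‖ₑ ^ q1) ^ (1 / q1) ≤ ((C1 * (A * δ ^ β)) ^ q1) ^ (1 / q1) :=
          ENNReal.rpow_le_rpow b1' (by positivity)
      _ = _ := by
          rw [← ENNReal.rpow_mul, mul_one_div_cancel hq1.ne', ENNReal.rpow_one]
  have h3 := interp volume (fun y => ‖EN f y‖ₑ) hEm q q0 q1 θ (by linarith) (by linarith)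
    hq1 hθ0 hθ1 hqq
  rw [← eL (by linarith), ← eL (by linarith), ← eL hq1] at h3
  refine h3.trans ?_
  have hδρ : (δ ^ β) ^ (1 - θ) = ((2 : ℝ≥0∞) ^ (n + 1)) ^ ρ * (ENNReal.ofReal (2 ^ (-ρ))) ^ m := by
    rw [← ENNReal.rpow_mul, ← hρ]
    have e1 : δ = 2 ^ (n + 1) * ENNReal.ofReal ((2 : ℝ)⁻¹ ^ m) := by
      rw [hδ, pow_succ, mul_assoc]
      congr 1
      rw [← ENNReal.ofReal_ofNat 2, ← ENNReal.ofReal_mul (by norm_num)]
      congr 1
      rw [inv_pow]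
      rfl
    rw [e1, ENNReal.mul_rpow_of_nonneg _ _ hρ0.le]
    congr 1
    rw [ENNReal.ofReal_rpow_of_nonneg (by positivity) hρ0.le, ← ENNReal.ofReal_pow (by positivity)]
    congr 1
    rw [← Real.rpow_natCast, ← Real.rpow_natCast, ← Real.rpow_mul (by norm_num),
      ← Real.rpow_mul (by norm_num), Real.inv_rpow (by norm_num), ← Real.rpow_neg (by norm_num)]
    congr 1
    ring
  calc (eLpNorm (EN f) (ENNReal.ofReal q0) volume) ^ θ *
        (eLpNorm (EN f) (ENNReal.ofReal q1) volume) ^ (1 - θ)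
      ≤ (3 * C0 * A) ^ θ * (C1 * (A * δ ^ β)) ^ (1 - θ) :=
        mul_le_mul' (ENNReal.rpow_le_rpow b0 hθ0.le) (ENNReal.rpow_le_rpow b1 hθ2.le)
    _ = ((3 * (C0 : ℝ≥0∞)) ^ θ * (C1 : ℝ≥0∞) ^ (1 - θ)) * (A ^ θ * A ^ (1 - θ)) *
        (δ ^ β) ^ (1 - θ) := by
        rw [ENNReal.mul_rpow_of_nonneg _ _ hθ0.le, ENNReal.mul_rpow_of_nonneg _ _ hθ2.le,
          ENNReal.mul_rpow_of_nonneg _ _ hθ2.le]
        ring
    _ = _ := by
        rw [← ENNReal.rpow_add_of_nonneg _ _ hθ0.le hθ2.le, add_sub_cancel, ENNReal.rpow_one, hδρ]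
        push_cast
        rw [ENNReal.coe_rpow_of_nonneg _ hθ0.le, ENNReal.coe_rpow_of_nonneg _ hθ2.le,
          ENNReal.coe_rpow_of_nonneg _ hρ0.le]
        push_cast
        ring

/-- the approximations -/
lemma ap_close' {n : ℕ} {i j : Fin n} (hij : i ≠ j) {K : ℝ → ℝ → ℂ} {G : ℝ → ℝ → ℝ}
    (h : Ctl K G) (m : ℕ) :
    Sm (fun z : Fin n → ℝ => K (z i) (z j) - ap K G m (z i) (z j))
      (2 ^ n * ENNReal.ofReal (1 / 2 ^ m)) := by
  have hm : Measurable (Function.uncurry fun s t => K s t - ap K G m s t) :=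
    h.1.sub (ap_meas h m)
  refine ⟨⟨hm.comp (pair_meas i j), ?_⟩, ?_⟩
  · intro z hz
    have hi : z i ∈ I1 := ⟨hz.1 i, hz.2 i⟩
    have hj : z j ∈ I1 := ⟨hz.1 j, hz.2 j⟩
    unfold ap
    refine (h.2.2.2.2.2 _ hi _ (rp_mem G _ _) _ hj).trans ?_
    have h1 := h.2.2.2.1 _ hi _ hj
    have h2 := h.2.2.2.1 _ (rp_mem G m (cl G m (z i))) _ hj
    rw [abs_le]
    constructor <;> linarith [h1.1, h1.2, h2.1, h2.2]
  · exact cube_pair hij (fun s t => ‖K s t - ap K G m s t‖ₑ) hm.enorm _ fun s hs => ap_close h m hs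

lemma EN_diff {n : ℕ} {f g : (Fin n → ℝ) → ℂ} (hf : Integrable f) (hg : Integrable g)
    (y : (Fin n → ℝ) × ℝ) : ‖EN f y - EN g y‖ₑ ≤ ∫⁻ ξ, ‖f ξ - g ξ‖ₑ := by
  have hi : ∀ {u : (Fin n → ℝ) → ℂ}, Integrable u → Integrable fun ξ => ch (pn ξ y) * u ξ := by
    intro u hu
    refine Integrable.mono hu (((ch_cont.comp (pn_cont2 y)).aestronglyMeasurable).mul
      hu.aestronglyMeasurable) (ae_of_all _ fun ξ => ?_)
    rw [norm_mul, ch_norm, one_mul]
  unfold EN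
  rw [← integral_sub (hi hf) (hi hg)]
  refine (enorm_integral_le_lintegral_enorm _).trans (le_of_eq ?_)
  apply lintegral_congr
  intro ξ
  rw [← mul_sub, enorm_mul, ← ofReal_norm (ch _), ch_norm, ENNReal.ofReal_one, one_mul]

/-- **The induction step.** -/
theorem step {n : ℕ} (hn : 2 ≤ n) {q p q0 q1 θ : ℝ} (h : Cond n q p) (h0 : Cond n q0 p)
    (h1 : 2 * ((n : ℝ) + 2) / n < q1) (hq1 : 0 < q1) (hθ0 : 0 < θ) (hθ1 : θ < 1)
    (hqq : 1 / q = θ / q0 + (1 - θ) / q1) (C0 : ℝ≥0) : ∃ C : ℝ≥0, ∀ (P : (Fin n → ℝ) → ℂ),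
    Adm P → Bd q0 p P C0 → ∀ (i j : Fin n), i ≠ j → ∀ (K : ℝ → ℝ → ℂ) (G : ℝ → ℝ → ℝ),
    Ctl K G → Bd q p (fun z => P z * K (z i) (z j)) C := by
  obtain ⟨C1, hC1⟩ := piece hn h h0 h1 hq1 hθ0 hθ1 hqq C0
  have hp2 := h.2.1
  have hp0 : 0 < p := by linarith
  have hq2 := one_lt_of_cond hn h
  have hθ2 : 0 < 1 - θ := by linarith
  set ρ : ℝ := (1 - 2 / p) / 2 * (1 - θ) with hρ
  have hρ0 : 0 < ρ := by
    have : 2 / p < 1 := by rwa [div_lt_one hp0]
    apply mul_pos _ hθ2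
    linarith
  set x : ℝ≥0∞ := ENNReal.ofReal (2 ^ (-ρ)) with hx
  have hx1 : x < 1 := by
    rw [hx, ENNReal.ofReal_lt_one]
    exact Real.rpow_lt_one_of_one_lt_of_neg (by norm_num) (by linarith)
  have hgeo : (1 - x)⁻¹ ≠ ⊤ := by
    rw [ENNReal.inv_ne_top]
    exact (tsub_pos_of_lt hx1).ne'
  refine ⟨C1 * ((1 - x)⁻¹).toNNReal, ?_⟩
  intro P hP hB i j hij K G hK H _ _ _ M a hM ha hN
  set A : ℝ≥0∞ := ∏ j, N1 p (a j) with hA
  have hAt : A ≠ ⊤ := ENNReal.prod_ne_top fun j _ => hN j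
  set f : (Fin n → ℝ) → ℂ := kx M a (fun z => P z * K (z i) (z j)) with hf
  set g : ℕ → (Fin n → ℝ) → ℂ := fun m => kx M a (fun z => P z * df K G m (z i) (z j)) with hg
  set F : ℕ → (Fin n → ℝ) → ℂ := fun m => kx M a (fun z => P z * ap K G m (z i) (z j)) with hF
  have hKadm : Adm fun z : Fin n → ℝ => K (z i) (z j) :=
    ⟨hK.1.comp (pair_meas i j), fun z hz => hK.2.2.1 _ ⟨hz.1 i, hz.2 i⟩ _ ⟨hz.1 j, hz.2 j⟩⟩
  have hapadm : ∀ m, Adm fun z : Fin n → ℝ => ap K G m (z i) (z j) := fun m =>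
    ⟨(ap_meas hK m).comp (pair_meas i j), fun z hz =>
      hK.2.2.1 _ (rp_mem G _ _) _ ⟨hz.1 j, hz.2 j⟩⟩
  have hfi : Integrable f := kx_int (by linarith) (adm_mul hP hKadm) hM ha hN
  have hFi : ∀ m, Integrable (F m) := fun m =>
    kx_int (by linarith) (adm_mul hP (hapadm m)) hM ha hN
  have hgi : ∀ m, Integrable (g m) := fun m =>
    kx_int (by linarith) (adm_mul hP (df_small hij hK m).1) hM ha hN
  -- the sum of the pieces
  have hFs : ∀ m, F m = fun ξ => (1 : ℂ) * ∑ l ∈ Finset.range (m + 1), g l ξ := by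
    intro m
    ext ξ
    rw [one_mul]
    simp only [hF, hg]
    unfold kx
    by_cases hξ : ξ ∈ Icc (-1 : Fin n → ℝ) 1
    · simp only [indicator_of_mem hξ]
      rw [ap_sum m ⟨hξ.1 i, hξ.2 i⟩, Finset.mul_sum, Finset.mul_sum]
    · simp only [indicator_of_notMem hξ]
      simp
  have hq' : (1 : ℝ≥0∞) ≤ ENNReal.ofReal q := by
    rw [← ENNReal.ofReal_one]
    exact ENNReal.ofReal_le_ofReal (by linarith)
  have hFb : ∀ m, eLpNorm (EN (F m)) (ENNReal.ofReal q) volume ≤ C1 * (1 - x)⁻¹ * A := by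
    intro m
    have e1 : EN (F m) = ∑ l ∈ Finset.range (m + 1), EN (g l) := by
      ext y
      rw [hFs m, EN_sum _ _ (fun l _ => hgi l), one_mul, Finset.sum_apply]
    rw [e1]
    calc eLpNorm (∑ l ∈ Finset.range (m + 1), EN (g l)) (ENNReal.ofReal q) volume
        ≤ ∑ l ∈ Finset.range (m + 1), eLpNorm (EN (g l)) (ENNReal.ofReal q) volume :=
          eLpNorm_sum_le (fun l _ => (EN_cont (hgi l)).aestronglyMeasurable) hq'
      _ ≤ ∑ l ∈ Finset.range (m + 1), C1 * x ^ l * A :=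
          Finset.sum_le_sum fun l _ => hC1 P hP hB i j hij K G hK l H M a hM ha hN
      _ ≤ ∑' l, C1 * x ^ l * A := ENNReal.sum_le_tsum _
      _ = C1 * (1 - x)⁻¹ * A := by
          rw [ENNReal.tsum_mul_right, ENNReal.tsum_mul_left, ENNReal.tsum_geometric]
  -- convergence
  have hdist : ∀ m y, ‖EN (F m) y - EN f y‖ₑ ≤
      A * (2 ^ n * ENNReal.ofReal (1 / 2 ^ m)) ^ (1 - 1 / p) := by
    intro m y
    rw [enorm_sub_rev]
    refine (EN_diff hfi (hFi m) y).trans ?_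
    have e1 : ∀ ξ, f ξ - F m ξ =
        kx M a (fun z => P z * (K (z i) (z j) - ap K G m (z i) (z j))) ξ := by
      intro ξ
      simp only [hf, hF]
      unfold kx
      by_cases hξ : ξ ∈ Icc (-1 : Fin n → ℝ) 1
      · simp only [indicator_of_mem hξ]
        ring
      · simp only [indicator_of_notMem hξ]
        ring
    simp only [e1]
    have h3 := kx_small (p := p) (r := 1) (by norm_num) (by linarith) (by
      have : 0 < 1 / p := by positivity
      linarith) hP (ap_close' hij hK m) hM ha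
    simp only [ENNReal.rpow_one] at h3
    exact h3
  have hlim : ∀ y, Tendsto (fun m => EN (F m) y) atTop (𝓝 (EN f y)) := by
    intro y
    rw [tendsto_iff_edist_tendsto_0]
    have h3 : Tendsto (fun m : ℕ => A * (2 ^ n * ENNReal.ofReal (1 / 2 ^ m)) ^ (1 - 1 / p)) atTop
        (𝓝 0) := by
      have hb : 0 < 1 - 1 / p := by
        have : 1 / p < 1 := by
          rw [div_lt_one hp0]
          linarith
        linarith
      have t1 : Tendsto (fun m : ℕ => ((1 : ℝ) / 2 ^ m)) atTop (𝓝 0) := by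
        simp only [one_div, ← inv_pow]
        exact tendsto_pow_atTop_nhds_zero_of_lt_one (by norm_num) (by norm_num)
      have t2 : Tendsto (fun m : ℕ => ENNReal.ofReal ((1 : ℝ) / 2 ^ m)) atTop (𝓝 0) := by
        rw [← ENNReal.ofReal_zero]
        exact ENNReal.tendsto_ofReal t1
      have t3 : Tendsto (fun m : ℕ => 2 ^ n * ENNReal.ofReal ((1 : ℝ) / 2 ^ m)) atTop (𝓝 0) := by
        have := ENNReal.Tendsto.const_mul (a := (2 : ℝ≥0∞) ^ n) t2 (Or.inr (by simp))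
        rwa [mul_zero] at this
      have t4 : Tendsto (fun m : ℕ => (2 ^ n * ENNReal.ofReal ((1 : ℝ) / 2 ^ m)) ^ (1 - 1 / p)) atTop
          (𝓝 0) := by
        have := (ENNReal.continuous_rpow_const (y := 1 - 1 / p)).tendsto 0
        rw [ENNReal.zero_rpow_of_pos hb] at this
        exact this.comp t3
      have := ENNReal.Tendsto.const_mul (a := A) t4 (Or.inr hAt)
      rwa [mul_zero] at this
    apply tendsto_of_tendsto_of_tendsto_of_le_of_le tendsto_const_nhds h3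
    · intro m
      exact zero_le
    · intro m
      simp only
      rw [edist_eq_enorm_sub]
      exact hdist m y
  have hfin := Lp.eLpNorm_lim_le_liminf_eLpNorm (p := ENNReal.ofReal q) (μ := volume)
    (fun m => (EN_cont (hFi m)).aestronglyMeasurable) (EN f) (ae_of_all _ hlim)
  refine hfin.trans ?_
  refine (liminf_le_of_le (by isBoundedDefault) fun b hb => ?_ :
    liminf (fun m => eLpNorm (EN (F m)) (ENNReal.ofReal q) volume) atTop ≤ C1 * (1 - x)⁻¹ * A).trans ?_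
  · obtain ⟨m, hm⟩ := hb.exists
    exact hm.trans (hFb m)
  · push_cast
    rw [ENNReal.coe_toNNReal hgeo]

end Pool.Agent.Q85.RV
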