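import Mathlib
import Pool.Agent.Q85.RV.D
set_option autoImplicit false
set_option linter.unusedSectionVars false

/-! The main theorem. -/

namespace Pool.Agent.Q85.RV

open MeasureTheory Set Complex Filter Topology Matrix
open Pool.Agent.Q85.HN
open Pool.Agent.TH277.HT (ch ch_norm ch_cont ch_sum lint_pi tuple_meas)
open scoped ENNReal NNReal

/-- the estimate without factors -/
theorem base {n : ℕ} (hn : 2 ≤ n) {q p : ℝ} (h : Cond n q p) :
    ∃ C : ℝ≥0, Bd q p (fun _ : Fin n → ℝ => (1 : ℂ)) C := by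
  have hnR : (2 : ℝ) ≤ n := by exact_mod_cast hn
  have hn0 : (0 : ℝ) < n := by linarith
  have hq2 := one_lt_of_cond hn h
  obtain ⟨h1, h2, h3⟩ := h
  have hp0 : 0 < p := by linarith
  have hq0 : 0 < q := by linarith
  have e1 : (n : ℝ) * max (1 / p) (1 / q) < n - (n + 2) / q := by
    rcases le_total (1 / p) (1 / q) with h | h
    · rw [max_eq_right h]
      rw [div_lt_iff₀ hn0] at h1
      have : (n : ℝ) - (n + 2) / q - n * (1 / q) = (q * n - 2 * (n + 1)) / q := by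
        field_simp
        ring
      have h4 : 0 < (q * n - 2 * (n + 1)) / q := div_pos (by linarith) hq0
      linarith
    · rw [max_eq_left h]
      have h4 : (n : ℝ) * (1 / p) < n * (1 - (n + 2) / (n * q)) := mul_lt_mul_of_pos_left h3 hn0
      have h5 : (n : ℝ) * (1 - (n + 2) / (n * q)) = n - (n + 2) / q := by field_simp
      linarith
  obtain ⟨C, hC⟩ := main n hn q (by linarith) (fun _ => p) (fun _ => by linarith) (fun _ => by
      have h4 : 1 / q < (n + 2) / (n * q) := by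
        rw [div_lt_div_iff₀ hq0 (by positivity)]
        nlinarith
      linarith) (by
      rw [Finset.sum_const, Finset.card_univ, Fintype.card_fin, nsmul_eq_mul]
      exact e1)
  refine ⟨C, ?_⟩
  intro H _ _ _ M a hM ha hN
  set M' : ℕ → ContinuousMultilinearMap ℂ (fun _ : Fin n => H) ℂ := fun k => if k = 0 then M else 0
    with hM'
  set a' : ℕ → Fin n → ℝ → H := fun k => if k = 0 then a else 0 with ha'
  have z0 : N1 p (0 : ℝ → H) = 0 := by
    unfold N1
    exact eLpNorm_zero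
  have j0 : Fin n := ⟨0, by omega⟩
  have h6 := hC H M' a' (fun _ => 1) (kc M a) (fun k x => by
      rw [hM']
      simp only
      split_ifs
      · exact hM x
      · simp only [ContinuousMultilinearMap.zero_apply, norm_zero]
        exact Finset.prod_nonneg fun j _ => norm_nonneg _)
    (fun k => by simp) (fun k j => by
      rw [ha']
      simp only
      split_ifs
      · exact ha j
      · exact stronglyMeasurable_zero) (fun k j => by
      rw [ha']
      simp only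
      split_ifs
      · exact hN j
      · show N1 p (0 : ℝ → H) ≠ ⊤
        rw [z0]
        exact ENNReal.zero_ne_top) (ae_of_all _ fun ξ => by
      rw [tsum_eq_single 0]
      · rw [hM', ha']
        simp
      · intro k hk
        rw [hM', ha']
        simp only [hk, if_false]
        unfold kc
        simp)
  rw [tsum_eq_single 0] at h6
  · have e2 : kx M a (fun _ : Fin n → ℝ => (1 : ℂ)) = kc M a := by
      ext ξ
      unfold kx kc
      simp
    rw [e2]
    simpa [ha'] using h6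
  · intro k hk
    apply Finset.prod_eq_zero (Finset.mem_univ j0)
    rw [ha']
    simp only [hk, if_false]
    exact z0

/-- the product of the factors -/
noncomputable def Pr {n N : ℕ} (i j : Fin N → Fin n) (K : Fin N → ℝ → ℝ → ℂ) (z : Fin n → ℝ) : ℂ :=
  ∏ l, K l (z (i l)) (z (j l))

lemma Pr_adm {n N : ℕ} (i j : Fin N → Fin n) (K : Fin N → ℝ → ℝ → ℂ) (G : Fin N → ℝ → ℝ → ℝ)
    (h : ∀ l, Ctl (K l) (G l)) : Adm (Pr i j K) := by
  refine ⟨?_, ?_⟩
  · unfold Pr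
    apply Finset.measurable_prod
    intro l _
    exact (h l).1.comp (pair_meas (i l) (j l))
  · intro z hz
    unfold Pr
    rw [norm_prod]
    apply Finset.prod_le_one
    · intro l _
      exact norm_nonneg _
    · intro l _
      exact (h l).2.2.1 _ ⟨hz.1 _, hz.2 _⟩ _ ⟨hz.1 _, hz.2 _⟩

theorem prods {n : ℕ} (hn : 2 ≤ n) (N : ℕ) : ∀ (q p : ℝ), Cond n q p → ∃ C : ℝ≥0,
    ∀ (i j : Fin N → Fin n) (K : Fin N → ℝ → ℝ → ℂ) (G : Fin N → ℝ → ℝ → ℝ),
    (∀ l, i l ≠ j l) → (∀ l, Ctl (K l) (G l)) → Bd q p (Pr i j K) C := by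
  induction N with
  | zero =>
    intro q p h
    obtain ⟨C, hC⟩ := base hn h
    refine ⟨C, ?_⟩
    intro i j K G _ _
    have e1 : Pr i j K = fun _ => (1 : ℂ) := by
      ext z
      unfold Pr
      simp
    rw [e1]
    exact hC
  | succ N ih =>
    intro q p h
    obtain ⟨q0, q1, θ, h0, h1, hθ0, hθ1, hq1, hqq⟩ := params hn h
    obtain ⟨C0, hC0⟩ := ih q0 p h0
    obtain ⟨C, hC⟩ := step hn h h0 h1 hq1 hθ0 hθ1 hqq C0
    refine ⟨C, ?_⟩
    intro i j K G hij hK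
    set i' : Fin N → Fin n := fun l => i l.castSucc with hi'
    set j' : Fin N → Fin n := fun l => j l.castSucc with hj'
    set K' : Fin N → ℝ → ℝ → ℂ := fun l => K l.castSucc with hK'
    have h2 : Bd q0 p (Pr i' j' K') C0 :=
      hC0 i' j' K' (fun l => G l.castSucc) (fun l => hij _) (fun l => hK _)
    have h3 := hC (Pr i' j' K') (Pr_adm i' j' K' (fun l => G l.castSucc) fun l => hK _) h2
      (i (Fin.last N)) (j (Fin.last N)) (hij _) (K (Fin.last N)) (G (Fin.last N)) (hK _)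
    have e1 : Pr i j K = fun z => Pr i' j' K' z *
        K (Fin.last N) (z (i (Fin.last N))) (z (j (Fin.last N))) := by
      ext z
      unfold Pr
      rw [Fin.prod_univ_castSucc]
    rw [e1]
    exact h3

/-- **The main theorem.** -/
theorem mainRV (n : ℕ) (hn : 2 ≤ n) (N : ℕ) (q p : ℝ) (h : Cond n q p) : ∃ C : ℝ≥0, ∀ (H : Type)
    [NormedAddCommGroup H] [InnerProductSpace ℂ H] [CompleteSpace H]
    (M : ℕ → ContinuousMultilinearMap ℂ (fun _ : Fin n => H) ℂ) (a : ℕ → Fin n → ℝ → H)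
    (O : ℕ → Matrix (Fin n) (Fin n) ℝ) (i j : ℕ → Fin N → Fin n) (K : ℕ → Fin N → ℝ → ℝ → ℂ)
    (G : ℕ → Fin N → ℝ → ℝ → ℝ) (f : (Fin n → ℝ) → ℂ),
    (∀ k x, ‖M k x‖ ≤ ∏ j, ‖x j‖) → (∀ k, (O k)ᵀ * O k = 1) →
    (∀ k j, StronglyMeasurable (a k j)) → (∀ k j, N1 p (a k j) ≠ ⊤) →
    (∀ k l, i k l ≠ j k l) → (∀ k l, Ctl (K k l) (G k l)) →
    (∀ᵐ ξ, f ξ = ∑' k, kx (M k) (a k) (Pr (i k) (j k) (K k)) (O k *ᵥ ξ)) →
    eLpNorm (EN f) (ENNReal.ofReal q) volume ≤ C * ∑' k, ∏ j, N1 p (a k j) := by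
  obtain ⟨C, hC⟩ := prods hn N q p h
  have hq2 := one_lt_of_cond hn h
  have hp2 := h.2.1
  have hq0 : 0 < q := by linarith
  refine ⟨C + 1, ?_⟩
  intro H _ _ _ M a O i j K G f hM hO ha hN hij hK hf
  set w : ℕ → ℝ≥0∞ := fun k => ∏ j, N1 p (a k j) with hw
  by_cases hwt : ∑' k, w k = ⊤
  · rw [hwt, ENNReal.mul_top]
    · exact le_top
    · have h1 : (1 : ℝ≥0∞) ≤ ((C + 1 : ℝ≥0) : ℝ≥0∞) := by
        push_cast
        exact le_add_self
      exact (lt_of_lt_of_le zero_lt_one h1).ne'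
  set κ : ℕ → (Fin n → ℝ) → ℂ := fun k => kx (M k) (a k) (Pr (i k) (j k) (K k)) with hκ
  set g : ℕ → (Fin n → ℝ) → ℂ := fun k ξ => κ k (O k *ᵥ ξ) with hg
  have hadm : ∀ k, Adm (Pr (i k) (j k) (K k)) := fun k => Pr_adm _ _ _ (G k) (hK k)
  have hκi : ∀ k, Integrable (κ k) := fun k => kx_int (by linarith) (hadm k) (hM k) (ha k) (hN k)
  have hκL : ∀ k, ∫⁻ ξ, ‖κ k ξ‖ₑ ≤ 2 ^ n * w k := fun k =>
    kx_L1 (by linarith) (hadm k) (hM k) (ha k)
  have hgi : ∀ k, Integrable (g k) := fun k =>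
    ((om_mp (hO k)).integrable_comp_emb (om_emb (hO k))).2 (hκi k)
  have hgL : ∀ k, ∫⁻ x, ‖g k x‖ₑ ≤ 2 ^ n * w k := by
    intro k
    refine le_trans (le_of_eq ?_) (hκL k)
    exact (om_mp (hO k)).lintegral_comp_emb (om_emb (hO k)) (fun x => ‖κ k x‖ₑ)
  have hgE : ∀ k, ∫⁻ y, ‖EN (g k) y‖ₑ ^ q ≤ (C : ℝ≥0∞) ^ q * w k ^ q := by
    intro k
    have h1 := hC (i k) (j k) (K k) (G k) (hij k) (hK k) H (M k) (a k) (hM k) (ha k) (hN k)
    calc ∫⁻ y, ‖EN (g k) y‖ₑ ^ q = ∫⁻ y, ‖EN (κ k) y‖ₑ ^ q := EN_om_lint (hO k) (hκi k) q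
      _ = ((∫⁻ y, ‖EN (κ k) y‖ₑ ^ q) ^ (1 / q)) ^ q := by
          rw [← ENNReal.rpow_mul, one_div_mul_cancel hq0.ne', ENNReal.rpow_one]
      _ = (eLpNorm (EN (κ k)) (ENNReal.ofReal q) volume) ^ q := by rw [eL hq0]
      _ ≤ (C * w k) ^ q := ENNReal.rpow_le_rpow h1 hq0.le
      _ = _ := ENNReal.mul_rpow_of_nonneg _ _ hq0.le
  have hfin := sum_gen volume volume (fun (ξ : Fin n → ℝ) (y : (Fin n → ℝ) × ℝ) => ch (pn ξ y))
    (fun ξ y => ch_norm _) (fun y => (ch_cont.comp (pn_cont2 y)).aestronglyMeasurable) q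
    (by linarith) ((C : ℝ≥0∞) ^ q) (2 ^ n) (by simp) w g hgi hgL
    (fun k => (EN_cont (hgi k)).enorm.measurable) hgE hwt f hf
  rw [eL hq0]
  calc (∫⁻ y, ‖EN f y‖ₑ ^ q) ^ (1 / q) ≤ ((C : ℝ≥0∞) ^ q * (∑' k, w k) ^ q) ^ (1 / q) :=
        ENNReal.rpow_le_rpow hfin (by positivity)
    _ = C * ∑' k, w k := by
        rw [← ENNReal.mul_rpow_of_nonneg _ _ hq0.le, ← ENNReal.rpow_mul,
          mul_one_div_cancel hq0.ne', ENNReal.rpow_one]
    _ ≤ _ := by
        gcongr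
        exact_mod_cast le_self_add

end Pool.Agent.Q85.RV
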